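import Mathlib
import Pool.Agent.Lib.MP_1684af_al.Defs

/-!
Operations on pp formulas, and free realisations.
-/

set_option autoImplicit false

namespace Pool.Agent.Lib.MP_1684af_al.Pos

variable {S : Type} [Ring S] {n : ℕ}

section ev

variable {M M' : Type} [AddCommGroup M] [Module S M] [AddCommGroup M'] [Module S M']

lemma ev_zero (φ : PP S n) : (0 : Fin n → M) ∈ φ.ev M := ⟨0, fun i => by simp⟩

lemma ev_add {φ : PP S n} {x x' : Fin n → M} (h : x ∈ φ.ev M) (h' : x' ∈ φ.ev M) :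
    x + x' ∈ φ.ev M := by
  obtain ⟨y, hy⟩ := h
  obtain ⟨y', hy'⟩ := h'
  refine ⟨y + y', fun i => ?_⟩
  simp only [Pi.add_apply, smul_add, Finset.sum_add_distrib]
  rw [add_add_add_comm, hy, hy', add_zero]

lemma ev_map {φ : PP S n} (f : M →ₗ[S] M') {x : Fin n → M} (h : x ∈ φ.ev M) :
    (fun j => f (x j)) ∈ φ.ev M' := by
  obtain ⟨y, hy⟩ := h
  refine ⟨fun l => f (y l), fun i => ?_⟩
  have := congrArg f (hy i)
  simpa [map_sum] using this

lemma ev_neg {φ : PP S n} {x : Fin n → M} (h : x ∈ φ.ev M) : -x ∈ φ.ev M :=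
  ev_map (-LinearMap.id) h

lemma ev_sub {φ : PP S n} {x x' : Fin n → M} (h : x ∈ φ.ev M) (h' : x' ∈ φ.ev M) :
    x - x' ∈ φ.ev M := by
  rw [sub_eq_add_neg]; exact ev_add h (ev_neg h')

lemma ev_sum {φ : PP S n} {ι : Type} (T : Finset ι) (x : ι → Fin n → M)
    (h : ∀ i ∈ T, x i ∈ φ.ev M) : ∑ i ∈ T, x i ∈ φ.ev M :=
  Finset.sum_induction x (· ∈ φ.ev M) (fun _ _ => ev_add) (ev_zero φ) h

end ev

lemma exists_mk {κ ρ : Type} [Fintype κ] [Fintype ρ] (A : ρ → Fin n → S) (B : ρ → κ → S) :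
    ∃ φ : PP S n, ∀ (M : Type) [AddCommGroup M] [Module S M] (x : Fin n → M),
      x ∈ φ.ev M ↔ ∃ y : κ → M, ∀ i, ∑ j, A i j • x j + ∑ l, B i l • y l = 0 := by
  let e := Fintype.equivFin κ
  let e' := Fintype.equivFin ρ
  refine ⟨⟨_, _, fun i => A (e'.symm i), fun i l => B (e'.symm i) (e.symm l)⟩, fun M _ _ x => ?_⟩
  constructor
  · rintro ⟨y, hy⟩
    refine ⟨fun l => y (e l), fun i => ?_⟩
    have := hy (e' i)
    simp only [Equiv.symm_apply_apply] at this
    rw [← this, ← e.symm.sum_comp]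
    simp
  · rintro ⟨y, hy⟩
    refine ⟨fun l => y (e.symm l), fun i => ?_⟩
    rw [← hy (e'.symm i), ← e.symm.sum_comp]

lemma sum_sub {M : Type} [AddCommGroup M] [Module S M] {k d : ℕ} (a : Fin k → S)
    (T : Fin k → Fin n → S) (U : Fin k → Fin d → S) (x : Fin n → M) (z : Fin d → M) :
    ∑ i, a i • (∑ j, T i j • x j + ∑ l, U i l • z l) =
      ∑ j, (∑ i, a i * T i j) • x j + ∑ l, (∑ i, a i * U i l) • z l := by
  simp only [smul_add, Finset.sum_add_distrib, Finset.smul_sum, Finset.sum_smul, mul_smul]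
  rw [Finset.sum_comm, Finset.sum_comm (f := fun i l => a i • U i l • z l)]

lemma exists_master {k k' d : ℕ} (φ : PP S k) (φ' : PP S k') (T : Fin k → Fin n → S)
    (U : Fin k → Fin d → S) (T' : Fin k' → Fin n → S) (U' : Fin k' → Fin d → S) :
    ∃ χ : PP S n, ∀ (M : Type) [AddCommGroup M] [Module S M] (x : Fin n → M),
      x ∈ χ.ev M ↔ ∃ z : Fin d → M,
        (fun i => ∑ j, T i j • x j + ∑ l, U i l • z l) ∈ φ.ev M ∧
        (fun i => ∑ j, T' i j • x j + ∑ l, U' i l • z l) ∈ φ'.ev M := by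
  obtain ⟨χ, h⟩ := exists_mk (κ := Fin d ⊕ (Fin φ.m ⊕ Fin φ'.m)) (ρ := Fin φ.r ⊕ Fin φ'.r)
    (Sum.elim (fun e j => ∑ i, φ.A e i * T i j) (fun e j => ∑ i, φ'.A e i * T' i j))
    (Sum.elim (fun e => Sum.elim (fun l => ∑ i, φ.A e i * U i l) (Sum.elim (φ.B e) 0))
      (fun e => Sum.elim (fun l => ∑ i, φ'.A e i * U' i l) (Sum.elim 0 (φ'.B e))))
  refine ⟨χ, fun M _ _ x => (h M x).trans ⟨?_, ?_⟩⟩
  · rintro ⟨y, hy⟩
    refine ⟨fun l => y (.inl l), ⟨fun l => y (.inr (.inl l)), fun e => ?_⟩,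
      ⟨fun l => y (.inr (.inr l)), fun e => ?_⟩⟩
    · have := hy (.inl e)
      rw [sum_sub, add_assoc]
      simpa using this
    · have := hy (.inr e)
      rw [sum_sub, add_assoc]
      simpa using this
  · rintro ⟨z, ⟨y, hy⟩, ⟨y', hy'⟩⟩
    refine ⟨Sum.elim z (Sum.elim y y'), ?_⟩
    rintro (e | e)
    · have := hy e
      rw [sum_sub, add_assoc] at this
      simpa using this
    · have := hy' e
      rw [sum_sub, add_assoc] at this
      simpa using this

/-- The formula that always holds. -/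
def top (S : Type) (n : ℕ) : PP S n := ⟨0, 0, Fin.elim0, Fin.elim0⟩

lemma mem_top {M : Type} [AddCommGroup M] [Module S M] (x : Fin n → M) : x ∈ (top S n).ev M :=
  ⟨Fin.elim0, fun i => i.elim0⟩

/-- The formula `x = 0`. -/
def bot (S : Type) [Ring S] (n : ℕ) : PP S n :=
  ⟨0, n, fun i j => if i = j then 1 else 0, fun _ => Fin.elim0⟩

lemma mem_bot {M : Type} [AddCommGroup M] [Module S M] {x : Fin n → M} :
    x ∈ (bot S n).ev M ↔ x = 0 := by
  constructor
  · rintro ⟨y, hy⟩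
    funext i
    simpa [bot, ite_smul] using hy i
  · rintro rfl; exact ev_zero _

lemma exists_conj (φ φ' : PP S n) : ∃ χ : PP S n,
    ∀ (M : Type) [AddCommGroup M] [Module S M] (x : Fin n → M),
      x ∈ χ.ev M ↔ x ∈ φ.ev M ∧ x ∈ φ'.ev M := by
  obtain ⟨χ, h⟩ := exists_master (n := n) (d := 0) φ φ' (fun i j => if i = j then 1 else 0) 0
    (fun i j => if i = j then 1 else 0) 0
  exact ⟨χ, fun M _ _ x => by simpa [ite_smul] using h M x⟩

lemma exists_sum (φ φ' : PP S n) : ∃ χ : PP S n,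
    ∀ (M : Type) [AddCommGroup M] [Module S M] (x : Fin n → M),
      x ∈ χ.ev M ↔ ∃ z, z ∈ φ.ev M ∧ x - z ∈ φ'.ev M := by
  obtain ⟨χ, h⟩ := exists_master (n := n) (d := n) φ φ' 0 (fun i j => if i = j then 1 else 0)
    (fun i j => if i = j then 1 else 0) (fun i j => if i = j then -1 else 0)
  refine ⟨χ, fun M _ _ x => ?_⟩
  have := h M x
  simp only [ite_smul, Pi.zero_apply, zero_smul, one_smul, neg_smul, Finset.sum_ite_eq,
    Finset.mem_univ, if_true, Finset.sum_const_zero, zero_add, ← sub_eq_add_neg] at this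
  exact this

lemma exists_sub {k : ℕ} (φ : PP S k) (t : Fin k → Fin n) : ∃ χ : PP S n,
    ∀ (M : Type) [AddCommGroup M] [Module S M] (x : Fin n → M),
      x ∈ χ.ev M ↔ (fun i => x (t i)) ∈ φ.ev M := by
  obtain ⟨χ, h⟩ := exists_master (n := n) (d := 0) φ (top S 0) (fun i j => if t i = j then 1 else 0)
    0 0 0
  exact ⟨χ, fun M _ _ x => by simpa [ite_smul, mem_top] using h M x⟩

lemma exists_exY (ρ : PP S (n + n)) (φ : PP S n) : ∃ χ : PP S n,
    ∀ (M : Type) [AddCommGroup M] [Module S M] (x : Fin n → M),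
      x ∈ χ.ev M ↔ ∃ y, Fin.append x y ∈ ρ.ev M ∧ y ∈ φ.ev M := by
  obtain ⟨χ, h⟩ := exists_master (n := n) (d := n) ρ φ
    (Fin.append (fun i j => if i = j then 1 else 0) 0)
    (Fin.append 0 (fun i j => if i = j then 1 else 0)) 0 (fun i j => if i = j then 1 else 0)
  refine ⟨χ, fun M _ _ x => (h M x).trans (exists_congr fun y => and_congr ?_ ?_)⟩
  · refine Eq.to_iff (congrArg (· ∈ ρ.ev M) (funext fun i => ?_))
    refine Fin.addCases (fun i => ?_) (fun i => ?_) i <;>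
      simp only [Fin.append_left, Fin.append_right] <;> simp [ite_smul]
  · simp [ite_smul]

lemma exists_exX (ρ : PP S (n + n)) (φ : PP S n) : ∃ χ : PP S n,
    ∀ (M : Type) [AddCommGroup M] [Module S M] (y : Fin n → M),
      y ∈ χ.ev M ↔ ∃ x, Fin.append x y ∈ ρ.ev M ∧ x ∈ φ.ev M := by
  obtain ⟨χ, h⟩ := exists_master (n := n) (d := n) ρ φ
    (Fin.append 0 (fun i j => if i = j then 1 else 0))
    (Fin.append (fun i j => if i = j then 1 else 0) 0) 0 (fun i j => if i = j then 1 else 0)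
  refine ⟨χ, fun M _ _ x => (h M x).trans (exists_congr fun y => and_congr ?_ ?_)⟩
  · refine Eq.to_iff (congrArg (· ∈ ρ.ev M) (funext fun i => ?_))
    refine Fin.addCases (fun i => ?_) (fun i => ?_) i <;>
      simp only [Fin.append_left, Fin.append_right] <;> simp [ite_smul]
  · simp [ite_smul]

noncomputable def conj (φ φ' : PP S n) : PP S n := (exists_conj φ φ').choose

noncomputable def plus (φ φ' : PP S n) : PP S n := (exists_sum φ φ').choose

lemma mem_conj {φ φ' : PP S n} {M : Type} [AddCommGroup M] [Module S M] {x : Fin n → M} :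
    x ∈ (conj φ φ').ev M ↔ x ∈ φ.ev M ∧ x ∈ φ'.ev M := (exists_conj φ φ').choose_spec M x

lemma mem_plus {φ φ' : PP S n} {M : Type} [AddCommGroup M] [Module S M] {x : Fin n → M} :
    x ∈ (plus φ φ').ev M ↔ ∃ z, z ∈ φ.ev M ∧ x - z ∈ φ'.ev M := (exists_sum φ φ').choose_spec M x

lemma exists_fconj (T : Finset (PP S n)) : ∃ χ : PP S n,
    ∀ (M : Type) [AddCommGroup M] [Module S M] (x : Fin n → M),
      x ∈ χ.ev M ↔ ∀ φ ∈ T, x ∈ φ.ev M := by
  classical
  induction T using Finset.induction_on with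
  | empty => exact ⟨top S n, fun M _ _ x => by simp [mem_top]⟩
  | insert φ T _ ih =>
    obtain ⟨χ, h⟩ := ih
    exact ⟨conj φ χ, fun M _ _ x => by simp [mem_conj, h]⟩

/-- Implication in all modules. -/
def Le (φ φ' : PP S n) : Prop :=
  ∀ (M : Type) [AddCommGroup M] [Module S M], φ.ev M ⊆ φ'.ev M

lemma Le.rfl {φ : PP S n} : Le φ φ := fun _ _ _ _ h => h

lemma Le.trans {φ φ' φ'' : PP S n} (h : Le φ φ') (h' : Le φ' φ'') : Le φ φ'' :=
  fun M _ _ _ hx => h' M (h M hx)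

lemma conj_le_left {φ φ' : PP S n} : Le (conj φ φ') φ := fun _ _ _ _ h => (mem_conj.1 h).1

lemma conj_le_right {φ φ' : PP S n} : Le (conj φ φ') φ' := fun _ _ _ _ h => (mem_conj.1 h).2

lemma le_conj {φ φ' χ : PP S n} (h : Le χ φ) (h' : Le χ φ') : Le χ (conj φ φ') :=
  fun M _ _ _ hx => mem_conj.2 ⟨h M hx, h' M hx⟩

lemma le_plus_left {φ φ' : PP S n} : Le φ (plus φ φ') :=
  fun _ _ _ x h => mem_plus.2 ⟨x, h, by simpa using ev_zero _⟩

lemma le_plus_right {φ φ' : PP S n} : Le φ' (plus φ φ') :=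
  fun _ _ _ x h => mem_plus.2 ⟨0, ev_zero _, by simpa using h⟩

lemma plus_le {φ φ' χ : PP S n} (h : Le φ χ) (h' : Le φ' χ) : Le (plus φ φ') χ := by
  intro M _ _ x hx
  obtain ⟨z, h1, h2⟩ := mem_plus.1 hx
  simpa using ev_add (h M h1) (h' M h2)

/-- The free realisation of a pp formula. -/
abbrev Free (φ : PP S n) : Type :=
  (Fin n ⊕ Fin φ.m → S) ⧸ Submodule.span S (Set.range fun i => Sum.elim (φ.A i) (φ.B i))

/-- The generic tuple of the free realisation. -/
def gen (φ : PP S n) : Fin n → Free φ := fun j => Submodule.Quotient.mk (Pi.single (.inl j) 1)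

lemma gen_mem (φ : PP S n) : gen φ ∈ φ.ev (Free φ) := by
  refine ⟨fun l => Submodule.Quotient.mk (Pi.single (.inr l) 1), fun i => ?_⟩
  simp only [gen, ← Submodule.mkQ_apply, ← map_smul, ← map_sum, ← map_add]
  rw [Submodule.mkQ_apply, Submodule.Quotient.mk_eq_zero]
  refine Submodule.subset_span ⟨i, funext ?_⟩
  rintro (j | l) <;> simp [Finset.sum_apply, Pi.single_apply]

lemma exists_of_mem {φ : PP S n} {M : Type} [AddCommGroup M] [Module S M] {x : Fin n → M}
    (h : x ∈ φ.ev M) : ∃ f : Free φ →ₗ[S] M, ∀ j, f (gen φ j) = x j := by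
  obtain ⟨y, hy⟩ := h
  refine ⟨Submodule.liftQ _ (Fintype.linearCombination S (Sum.elim x y)) ?_, fun j => ?_⟩
  · rw [Submodule.span_le]
    rintro _ ⟨i, rfl⟩
    simpa [Fintype.linearCombination_apply] using hy i
  · simp [gen, Fintype.linearCombination_apply, Pi.single_apply, ite_smul]

lemma le_of_gen {φ χ : PP S n} (h : gen φ ∈ χ.ev (Free φ)) : Le φ χ := by
  intro M _ _ x hx
  obtain ⟨f, hf⟩ := exists_of_mem hx
  simpa only [hf] using ev_map f h

end Pool.Agent.Lib.MP_1684af_al.Pos
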