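import Pool.Agent.Lib.MP_1684af_al.Pos.A
import Pool.Agent.Lib.MP_cfafa5_al.Defs

/-!
Modules with limits along filters: extension of partial maps, pure-injectivity, double duals.
-/

set_option autoImplicit false

namespace Pool.Agent.Lib.MP_1684af_al.Pos

open Filter Pool.Agent.Lib.MP_cfafa5_al

variable {S : Type} [Ring S] {n : ℕ}

/-- `Q` has linear limit maps along all proper filters. -/
def LP (S : Type) [Ring S] (Q : Type) [AddCommGroup Q] [Module S Q] : Prop :=
  ∀ (I : Type) (l : Filter I), l.NeBot → ∃ r : (I → Q) →ₗ[S] Q,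
    (∀ q, r (fun _ => q) = q) ∧ ∀ u, (∀ᶠ i in l, u i = 0) → r u = 0

variable {Q M : Type} [AddCommGroup Q] [Module S Q] [AddCommGroup M] [Module S M]

lemma lim_mem {I : Type} {l : Filter I} (r : (I → Q) →ₗ[S] Q)
    (hr : ∀ u, (∀ᶠ i in l, u i = 0) → r u = 0) {φ : PP S n} (u : I → Fin n → Q)
    (h : ∀ᶠ i in l, u i ∈ φ.ev Q) : (fun j => r fun i => u i j) ∈ φ.ev Q := by
  classical
  let y : I → Fin φ.m → Q := fun i => if hi : u i ∈ φ.ev Q then hi.choose else 0
  refine ⟨fun t => r fun i => y i t, fun e => ?_⟩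
  simp only [← map_smul, ← map_sum, ← map_add]
  refine hr _ (h.mono fun i hi => ?_)
  have := hi.choose_spec e
  simpa [y, hi, Finset.sum_apply] using this

lemma lim_eq {I : Type} {l : Filter I} (r : (I → Q) →ₗ[S] Q) (h1 : ∀ q, r (fun _ => q) = q)
    (hr : ∀ u, (∀ᶠ i in l, u i = 0) → r u = 0) {u : I → Q} {q : Q} (h : ∀ᶠ i in l, u i = q) :
    r u = q := by
  have := hr (u - fun _ => q) (h.mono fun i hi => by simp [hi])
  rwa [map_sub, h1, sub_eq_zero] at this

lemma lim_comb {I : Type} (r : (I → Q) →ₗ[S] Q) (w : I → M → Q) (u : M →₀ S) :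
    Finsupp.linearCombination S (fun m => r fun i => w i m) u =
      r fun i => Finsupp.linearCombination S (w i) u := by
  simp only [Finsupp.linearCombination_apply, Finsupp.sum, ← map_smul]
  rw [← map_sum]
  congr 1
  funext i
  simp [Finset.sum_apply]

lemma exists_stage (Γ : Set (M × Q))
    (hΓ : ∀ (k : ℕ) (ρ : PP S k) (z : Fin k → M × Q), (∀ t, z t ∈ Γ) →
      (fun t => (z t).1) ∈ ρ.ev M → (fun t => (z t).2) ∈ ρ.ev Q)
    (T : Finset {u : M →₀ S // Finsupp.linearCombination S id u = 0}) (G : Finset Γ) :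
    ∃ w : M → Q, (∀ u ∈ T, Finsupp.linearCombination S w u.1 = 0) ∧ ∀ z ∈ G, w z.1.1 = z.1.2 := by
  classical
  set V : Finset M := T.biUnion (fun u => u.1.support) ∪ G.image (fun z => z.1.1) with hV
  let z : Fin G.card → Γ := fun t => (G.equivFin.symm t).1
  have hz : ∀ t, (z t).1.1 ∈ V := fun t =>
    Finset.mem_union_right _ (Finset.mem_image_of_mem _ (G.equivFin.symm t).2)
  have key : ∀ (N : Type) [AddCommGroup N] [Module S N] (w : M → N), ∀ u ∈ T,
      Finsupp.linearCombination S w u.1 = ∑ v : V, u.1 v • w v := by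
    intro N _ _ w u hu
    rw [Finsupp.linearCombination_apply, Finsupp.sum_of_support_subset _
      (show u.1.support ⊆ V from fun v hv => Finset.mem_union_left _
        (Finset.mem_biUnion.2 ⟨u, hu, hv⟩)) _ (by simp), Finset.sum_coe_sort V fun v => u.1 v • w v]
  obtain ⟨ρ, hρ⟩ := exists_mk (S := S) (n := G.card) (κ := V) (ρ := T ⊕ Fin G.card)
    (Sum.elim 0 fun t j => if t = j then 1 else 0)
    (Sum.elim (fun u v => u.1.1 v) fun t v => if (⟨_, hz t⟩ : V) = v then -1 else 0)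
  obtain ⟨y, hy⟩ := (hρ Q _).1 (hΓ _ ρ (fun t => (z t).1) (fun t => (z t).2) ((hρ M _).2
    ⟨fun v => v.1, by
      rintro (u | t)
      · simpa using (key M id u.1 u.2).symm.trans u.1.2
      · simp [ite_smul]⟩))
  refine ⟨fun m => if h : m ∈ V then y ⟨m, h⟩ else 0, fun u hu => ?_, fun g hg => ?_⟩
  · rw [key Q _ u hu]
    simpa using hy (.inl ⟨u, hu⟩)
  · have h1 := hy (.inr (G.equivFin ⟨g, hg⟩))
    have h2 : z (G.equivFin ⟨g, hg⟩) = g := by simp [z]
    have h3 := hz (G.equivFin ⟨g, hg⟩)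
    simp only [Sum.elim_inr, ite_smul, one_smul, zero_smul, neg_smul, Finset.sum_ite_eq,
      Finset.mem_univ, if_true, h2, add_neg_eq_zero] at h1
    rw [h2] at h3
    simp only [h3, dif_pos]
    exact h1.symm

theorem LP.ext (hQ : LP S Q) (Γ : Set (M × Q))
    (hΓ : ∀ (k : ℕ) (ρ : PP S k) (z : Fin k → M × Q), (∀ t, z t ∈ Γ) →
      (fun t => (z t).1) ∈ ρ.ev M → (fun t => (z t).2) ∈ ρ.ev Q) :
    ∃ h : M →ₗ[S] Q, ∀ z ∈ Γ, h z.1 = z.2 := by
  classical
  choose w hw1 hw2 using exists_stage Γ hΓ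
  obtain ⟨r, h1, h2⟩ := hQ
    (Finset {u : M →₀ S // Finsupp.linearCombination S id u = 0} × Finset Γ) atTop inferInstance
  have key : ∀ u : M →₀ S, Finsupp.linearCombination S id u = 0 →
      Finsupp.linearCombination S (fun m => r fun i => w i.1 i.2 m) u = 0 := by
    intro u hu
    have e : Finsupp.linearCombination S (fun m => r fun i => w i.1 i.2 m) u =
        r fun i => Finsupp.linearCombination S (w i.1 i.2) u :=
      lim_comb r (fun i => w i.1 i.2) u
    rw [e]
    refine h2 _ ((eventually_ge_atTop ({⟨u, hu⟩}, ∅)).mono fun i hi => hw1 _ _ ⟨u, hu⟩ ?_)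
    exact hi.1 (Finset.mem_singleton_self _)
  refine ⟨⟨⟨fun m => r fun i => w i.1 i.2 m, fun m m' => ?_⟩, fun s m => ?_⟩, fun z hz => ?_⟩
  · have := key (Finsupp.single (m + m') 1 - (Finsupp.single m 1 + Finsupp.single m' 1)) (by simp)
    simpa [sub_eq_zero] using this
  · have := key (Finsupp.single (s • m) 1 - Finsupp.single m s) (by simp)
    simpa [sub_eq_zero] using this
  · refine lim_eq r h1 h2 ((eventually_ge_atTop (∅, {⟨z, hz⟩})).mono fun i hi => ?_)
    exact hw2 _ _ ⟨z, hz⟩ (hi.2 (Finset.mem_singleton_self _))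

theorem LP.ext_tuple (hQ : LP S Q) (x : Fin n → M) (y : Fin n → Q)
    (h : ∀ χ : PP S n, x ∈ χ.ev M → y ∈ χ.ev Q) : ∃ f : M →ₗ[S] Q, ∀ j, f (x j) = y j := by
  obtain ⟨f, hf⟩ := hQ.ext (Set.range fun j => (x j, y j)) fun k ρ z hz h1 => by
    choose t ht using hz
    obtain ⟨χ, hχ⟩ := exists_sub ρ t
    simp only [← ht] at h1 ⊢
    exact (hχ Q y).1 (h χ ((hχ M x).2 h1))
  exact ⟨f, fun j => hf _ ⟨j, rfl⟩⟩

theorem LP.pureInj (hQ : LP S Q) : IsPureInjective S Q := by
  intro M N _ _ _ _ f hf g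
  obtain ⟨h, hh⟩ := hQ.ext (Set.range fun m => (f m, g m)) fun k ρ z hz h1 => by
    choose t ht using hz
    simp only [← ht] at h1 ⊢
    refine ev_map g ?_
    obtain ⟨y, hy⟩ := h1
    obtain ⟨y', hy'⟩ := hf.2 _ _ ρ.B (fun i => -∑ j, ρ.A i j • t j) ⟨y, fun i => by
      rw [map_neg, map_sum, eq_neg_iff_add_eq_zero, add_comm]
      simpa using hy i⟩
    exact ⟨y', fun i => by rw [hy', add_neg_cancel]⟩
  exact ⟨h, fun m => hh _ ⟨m, rfl⟩⟩

lemma LP.retract (hQ : LP S Q) (i : M →ₗ[S] Q) (p : Q →ₗ[S] M) (h : ∀ x, p (i x) = x) :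
    LP S M := by
  intro I l hl
  obtain ⟨r, h1, h2⟩ := hQ I l hl
  refine ⟨p ∘ₗ r ∘ₗ i.compLeft I, fun q => ?_, fun u hu => ?_⟩
  · show p (r fun _ => i q) = q
    rw [h1, h]
  · show p (r fun j => i (u j)) = 0
    rw [h2 _ (hu.mono fun j hj => by simp [hj]), map_zero]

/-- The double character dual. -/
def DD (M : Type) [AddCommGroup M] : Type := (M →+ AddCircle (1 : ℚ)) →+ AddCircle (1 : ℚ)

noncomputable instance : AddCommGroup (DD M) :=
  inferInstanceAs (AddCommGroup ((M →+ AddCircle (1 : ℚ)) →+ AddCircle (1 : ℚ)))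

/-- Precomposition with a scalar. -/
def pre (s : S) : (M →+ AddCircle (1 : ℚ)) →+ (M →+ AddCircle (1 : ℚ)) where
  toFun c := c.comp (DistribSMul.toAddMonoidHom M s)
  map_zero' := by ext; simp
  map_add' _ _ := by ext; simp

/-- The underlying map of an element of the double dual. -/
def DD.fn (ξ : DD M) : (M →+ AddCircle (1 : ℚ)) →+ AddCircle (1 : ℚ) := ξ

lemma DD.ext {ξ ξ' : DD M} (h : ∀ c, ξ.fn c = ξ'.fn c) : ξ = ξ' := AddMonoidHom.ext h

/-- Evaluation at a character. -/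
noncomputable def DD.at (c : M →+ AddCircle (1 : ℚ)) : DD M →+ AddCircle (1 : ℚ) where
  toFun ξ := ξ.fn c
  map_zero' := rfl
  map_add' _ _ := rfl

noncomputable instance : Module S (DD M) where
  smul s ξ := ξ.fn.comp (pre s)
  one_smul ξ := DD.ext fun c => congrArg ξ.fn (by ext; simp [pre])
  mul_smul s t ξ := DD.ext fun c => congrArg ξ.fn (by ext; simp [pre, mul_smul])
  smul_zero s := rfl
  smul_add s ξ ξ' := rfl
  add_smul s t ξ := DD.ext fun c => by
    refine Eq.trans (congrArg ξ.fn ?_) (map_add ξ.fn (pre s c) (pre t c))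
    ext; simp [pre, add_smul]
  zero_smul ξ := DD.ext fun c => by
    refine Eq.trans (congrArg ξ.fn ?_) (map_zero ξ.fn)
    ext; simp [pre]

lemma DD.at_smul (c : M →+ AddCircle (1 : ℚ)) (s : S) (ξ : DD M) :
    DD.at c (s • ξ) = ξ.fn (pre s c) := rfl

/-- The canonical map to the double dual. -/
noncomputable def toDD (S : Type) [Ring S] (M : Type) [AddCommGroup M] [Module S M] :
    M →ₗ[S] DD M where
  toFun m := AddMonoidHom.eval m
  map_add' m m' := DD.ext fun c => map_add c m m'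
  map_smul' _ _ := DD.ext fun _ => rfl

theorem lp_DD : LP S (DD M) := by
  intro I l hl
  let K : Submodule ℤ (I → AddCircle (1 : ℚ)) :=
    { carrier := {u | ∀ᶠ i in l, u i = 0}
      add_mem' := fun h h' => (h.and h').mono fun i hi => by simp [hi.1, hi.2]
      zero_mem' := Eventually.of_forall fun _ => rfl
      smul_mem' := fun _ _ h => h.mono fun i hi => by simp [hi] }
  obtain ⟨c, hc⟩ := CharacterModule.dual_surjective_of_injective
    (K.mkQ ∘ₗ LinearMap.pi fun _ => LinearMap.id) (by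
      rw [injective_iff_map_eq_zero]
      intro d hd
      exact (show ∀ᶠ _ in l, d = 0 from (Submodule.Quotient.mk_eq_zero K).1 hd).exists.choose_spec)
    (AddMonoidHom.id _)
  have c1 : ∀ d, c (K.mkQ fun _ => d) = d := fun d => DFunLike.congr_fun hc d
  refine ⟨⟨⟨fun u => ⟨⟨fun χ => c (K.mkQ fun i => (u i).fn χ), ?_⟩, fun χ χ' => ?_⟩,
    fun u u' => DD.ext fun χ => ?_⟩, fun s u => DD.ext fun χ => rfl⟩,
    fun q => DD.ext fun χ => c1 _, fun u hu => DD.ext fun χ => ?_⟩
  · simpa using c1 0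
  · refine Eq.trans (congrArg c ?_) (map_add c _ _)
    rw [← map_add]
    exact congrArg _ (funext fun i => map_add (u i).fn χ χ')
  · exact (congrArg c (map_add K.mkQ _ _)).trans (map_add c _ _)
  · refine Eq.trans (congrArg c ((Submodule.Quotient.mk_eq_zero K).2 ?_)) (map_zero c)
    exact hu.mono fun i hi => by
      show (u i).fn χ = 0
      rw [hi]; rfl

theorem mem_of_toDD {φ : PP S n} {x : Fin n → M} (h : (fun j => toDD S M (x j)) ∈ φ.ev (DD M)) :
    x ∈ φ.ev M := by
  classical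
  obtain ⟨y, hy⟩ := h
  by_contra hx
  let Bm : (Fin φ.m → M) →+ (Fin φ.r → M) :=
    { toFun := fun y i => ∑ l, φ.B i l • y l
      map_zero' := by ext; simp
      map_add' := fun _ _ => by ext; simp [Finset.sum_add_distrib] }
  obtain ⟨c, hc⟩ := CharacterModule.exists_character_apply_ne_zero_of_ne_zero
    (a := QuotientAddGroup.mk' Bm.range fun i => ∑ j, φ.A i j • x j) (by
      intro h0
      obtain ⟨y', hy'⟩ := (QuotientAddGroup.eq_zero_iff _).1 h0
      refine hx ⟨-y', fun i => ?_⟩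
      have := congrFun hy' i
      simp only [Pi.neg_apply, smul_neg, Finset.sum_neg_distrib]
      exact add_neg_eq_zero.2 this.symm)
  let c' : (Fin φ.r → M) →+ AddCircle (1 : ℚ) :=
    AddMonoidHom.comp c (QuotientAddGroup.mk' Bm.range)
  let ci : Fin φ.r → M →+ AddCircle (1 : ℚ) := fun i =>
    c'.comp (AddMonoidHom.single (fun _ => M) i)
  have hsum : ∀ v : Fin φ.r → M, c' v = ∑ i, ci i (v i) := fun v => by
    conv_lhs => rw [← Finset.univ_sum_single v, map_sum]
    rfl
  have hB : ∀ l, ∑ i, pre (φ.B i l) (ci i) = 0 := by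
    intro l
    ext m
    have h0 : c' (Bm (Pi.single l m)) = 0 := by
      refine Eq.trans (congrArg c ((QuotientAddGroup.eq_zero_iff _).2 ⟨_, rfl⟩)) (map_zero c)
    rw [hsum] at h0
    simpa [pre, Bm, Pi.single_apply] using h0
  have h1 : ∑ i, DD.at (ci i) (∑ j, φ.A i j • toDD S M (x j) + ∑ l, φ.B i l • y l) = 0 := by
    simp [hy]
  simp only [map_add, Finset.sum_add_distrib] at h1
  have h2 : ∑ i, DD.at (ci i) (∑ l, φ.B i l • y l) = 0 := by
    simp only [map_sum, DD.at_smul]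
    rw [Finset.sum_comm]
    refine Finset.sum_eq_zero fun l _ => ?_
    rw [← map_sum, hB, map_zero]
  rw [h2, add_zero] at h1
  refine hc ((hsum _).trans (Eq.trans (Finset.sum_congr rfl fun i _ => ?_) h1))
  simp only [← map_smul, ← map_sum]
  rfl

end Pool.Agent.Lib.MP_1684af_al.Pos
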