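import Pool.Agent.Lib.MP_1684af_al.Pos.B

/-!
Hulls, local endomorphism rings, and realisation of maximal types.
-/

set_option autoImplicit false

namespace Pool.Agent.Lib.MP_1684af_al.Pos

open Filter Pool.Agent.Lib.MP_cfafa5_al

variable {S : Type} [Ring S] {n : ℕ}
variable {Q : Type} [AddCommGroup Q] [Module S Q]

/-- `g` fixes `c` modulo `ψ`. -/
def Fix (c : Fin n → Q) (ψ : PP S n) (g : Q →ₗ[S] Q) : Prop := (fun j => g (c j)) - c ∈ ψ.ev Q

lemma Fix.id (c : Fin n → Q) (ψ : PP S n) : Fix c ψ LinearMap.id := by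
  have : (fun j => (LinearMap.id : Q →ₗ[S] Q) (c j)) - c = 0 := by funext j; simp
  rw [Fix, this]; exact ev_zero ψ

lemma Fix.comp {c : Fin n → Q} {ψ : PP S n} {g h : Q →ₗ[S] Q} (hh : Fix c ψ h) (hg : Fix c ψ g) :
    Fix c ψ (h ∘ₗ g) := by
  have := ev_add (ev_map h hg) hh
  refine cast (congrArg (· ∈ ψ.ev Q) (funext fun j => ?_)) this
  simp

lemma Fix.of_comp {c : Fin n → Q} {ψ : PP S n} {g h : Q →ₗ[S] Q} (hh : Fix c ψ (h ∘ₗ g))
    (hg : Fix c ψ g) : Fix c ψ h := by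
  have := ev_sub hh (ev_map h hg)
  refine cast (congrArg (· ∈ ψ.ev Q) (funext fun j => ?_)) this
  simp

lemma Fix.lim {c : Fin n → Q} {ψ : PP S n} {I : Type} {l : Filter I} (r : (I → Q) →ₗ[S] Q)
    (h1 : ∀ q, r (fun _ => q) = q) (hr : ∀ u, (∀ᶠ i in l, u i = 0) → r u = 0) (g : I → Q →ₗ[S] Q)
    (hg : ∀ i, Fix c ψ (g i)) : Fix c ψ (r ∘ₗ LinearMap.pi g) := by
  have := lim_mem r hr (fun i => (fun j => g i (c j)) - c) (Eventually.of_forall hg)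
  refine cast (congrArg (· ∈ ψ.ev Q) (funext fun j => ?_)) this
  exact (map_sub r (fun i => g i (c j)) fun _ => c j).trans (by rw [h1]; rfl)

theorem exists_pp_hull (hQ : LP S Q) (c : Fin n → Q) (ψ : PP S n) :
    ∃ e : Q →ₗ[S] Q, (∀ x, e (e x) = e x) ∧ Fix c ψ e ∧
      ∀ g, Fix c ψ g → ∃ h : Q →ₗ[S] Q, ∀ x, h (g (e x)) = e x := by
  classical
  obtain ⟨H, -, hH⟩ := zorn_subset_nonempty {H : Set Q | ∀ g, Fix c ψ g → ∀ T : Finset Q,
      (T : Set Q) ⊆ H → ∃ h, Fix c ψ h ∧ ∀ x ∈ T, h (g x) = x} (fun C hC hch hne =>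
    ⟨⋃₀ C, fun g hg T hT => by
      obtain ⟨H, hH, hTH⟩ := DirectedOn.exists_mem_subset_of_finset_subset_biUnion hne
        (f := id) hch.directedOn (s := T) (by rwa [Set.sUnion_eq_biUnion] at hT)
      exact hC hH g hg T hTH, fun s hs => Set.subset_sUnion_of_mem hs⟩) ∅
    (fun g _ T hT => ⟨LinearMap.id, Fix.id c ψ, fun x hx => (hT hx).elim⟩)
  have small : ∀ g, Fix c ψ g → ∃ h, Fix c ψ h ∧ ∀ x ∈ H, h (g x) = x := by
    intro g hg
    choose h hh1 hh2 using fun T : Finset H => hH.prop g hg (T.image Subtype.val) (by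
      intro x hx
      obtain ⟨y, -, rfl⟩ := Finset.mem_image.1 hx
      exact y.2)
    obtain ⟨r, h1, h2⟩ := hQ (Finset H) atTop inferInstance
    refine ⟨r ∘ₗ LinearMap.pi h, Fix.lim r h1 h2 h hh1, fun x hx => lim_eq r h1 h2
      ((eventually_ge_atTop {⟨x, hx⟩}).mono fun T hT => hh2 T x ?_)⟩
    exact Finset.mem_image.2 ⟨⟨x, hx⟩, hT (Finset.mem_singleton_self _), rfl⟩
  let tp : (Q →ₗ[S] Q) → Set ((k : ℕ) × PP S k × (Fin k → Q)) := fun f =>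
    {p | (fun t => f (p.2.2 t)) ∈ p.2.1.ev Q}
  obtain ⟨_, -, hf⟩ := zorn_subset_nonempty
    {t | ∃ f, (Fix c ψ f ∧ ∀ x ∈ H, f x = x) ∧ tp f = t} (fun C hC hch hne => by
      choose f hf1 hf2 using fun t : C => hC t.2
      have : Nonempty C := hne.to_subtype
      have : IsDirectedOrder C := ⟨fun a b => (hch.total a.2 b.2).elim
        (fun h => ⟨b, h, le_rfl⟩) fun h => ⟨a, le_rfl, h⟩⟩
      obtain ⟨r, h1, h2⟩ := hQ C atTop inferInstance
      refine ⟨_, ⟨r ∘ₗ LinearMap.pi f, ⟨Fix.lim r h1 h2 f fun t => (hf1 t).1, fun x hx =>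
        lim_eq r h1 h2 (Eventually.of_forall fun t => (hf1 t).2 x hx)⟩, rfl⟩, fun s hs p hp => ?_⟩
      refine lim_mem r h2 (fun t j => f t (p.2.2 j))
        ((eventually_ge_atTop (⟨s, hs⟩ : C)).mono fun t ht => ?_)
      have : p ∈ tp (f t) := (hf2 t).symm ▸ ht hp
      exact this) _ ⟨LinearMap.id, ⟨Fix.id c ψ, fun _ _ => rfl⟩, rfl⟩
  obtain ⟨f, ⟨f1, f2⟩, rfl⟩ := hf.prop
  have main : ∀ g, Fix c ψ g → ∃ h, Fix c ψ h ∧ ∀ x, h (g (f x)) = f x := by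
    intro g hg
    obtain ⟨h, g1, g2⟩ := small g hg
    have le : tp (h ∘ₗ g ∘ₗ f) ⊆ tp f := hf.le_of_ge (y := tp (h ∘ₗ g ∘ₗ f))
      ⟨_, ⟨g1.comp (hg.comp f1), fun x hx => by simp [f2 x hx, g2 x hx]⟩, rfl⟩
      fun p hp => ev_map (h ∘ₗ g) hp
    obtain ⟨k, hk⟩ := hQ.ext (Set.range fun x => (h (g (f x)), f x)) fun k ρ z hz h1 => by
      choose t ht using hz
      simp only [← ht] at h1 ⊢
      exact le (a := ⟨k, ρ, t⟩) h1
    have hk' : ∀ x, k (h (g (f x))) = f x := fun x => hk _ ⟨x, rfl⟩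
    refine ⟨k ∘ₗ h, Fix.of_comp (g := g ∘ₗ f) ?_ (hg.comp f1), hk'⟩
    have : (k ∘ₗ h) ∘ₗ g ∘ₗ f = f := LinearMap.ext hk'
    rwa [this]
  have sub : Set.range f ⊆ H := hH.le_of_ge (y := Set.range f) (fun g hg T hT => by
    obtain ⟨h, g1, g2⟩ := main g hg
    refine ⟨h, g1, fun x hx => ?_⟩
    obtain ⟨y, rfl⟩ := hT hx
    exact g2 y) fun x hx => ⟨x, f2 x hx⟩
  exact ⟨f, fun x => f2 _ (sub ⟨x, rfl⟩), f1, fun g hg => (main g hg).imp fun _ h => h.2⟩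

theorem lp_of_pureInj (hQ : IsPureInjective S Q) : LP S Q := by
  obtain ⟨p, hp⟩ := hQ Q (DD Q) (toDD S Q) ⟨by
    rw [injective_iff_map_eq_zero]
    intro x hx
    have := mem_of_toDD (φ := bot S 1) (x := fun _ => x) (mem_bot.2 (funext fun _ => hx))
    exact congrFun (mem_bot.1 this) 0, fun m k b c ⟨y, hy⟩ => by
    obtain ⟨y', hy'⟩ := mem_of_toDD (x := c)
      (φ := ⟨k, m, fun i j => if i = j then -1 else 0, b⟩) ⟨y, fun i => by simp [ite_smul, hy]⟩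
    refine ⟨y', fun i => ?_⟩
    have := hy' i
    simp only [ite_smul, neg_smul, one_smul, zero_smul, Finset.sum_ite_eq, Finset.mem_univ,
      if_true, neg_add_eq_zero] at this
    exact this.symm⟩ LinearMap.id
  exact lp_DD.retract _ p hp

theorem left_inv_of_fix (hQ : LP S Q) (hi : IsIndecomposable S Q) {c : Fin n → Q} {ψ : PP S n}
    (hc : c ∉ ψ.ev Q) {g : Q →ₗ[S] Q} (hg : Fix c ψ g) : ∃ h : Q →ₗ[S] Q, ∀ x, h (g x) = x := by
  obtain ⟨e, e1, e2, e3⟩ := exists_pp_hull hQ c ψ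
  have hp : IsIdempotentElem e := LinearMap.ext e1
  rcases hi.2 _ _ (LinearMap.IsIdempotentElem.isCompl hp) with h | h
  · rw [LinearMap.range_eq_bot] at h
    refine absurd (cast (congrArg (· ∈ ψ.ev Q) (funext fun j => ?_)) (ev_neg e2)) hc
    simp [h]
  · have h4 : ∀ y, e y = y := fun y => by
      have : y - e y ∈ (⊥ : Submodule S Q) := by rw [← h, LinearMap.mem_ker, map_sub, e1, sub_self]
      exact (sub_eq_zero.1 this).symm
    simpa only [h4] using e3 g hg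

/-- No endomorphism sends `a` into `ψ` while its complement sends `b` into `ψ'`. -/
theorem not_split (hQ : LP S Q) (hi : IsIndecomposable S Q) {k : ℕ} {a : Fin n → Q} {ψ : PP S n}
    {b : Fin k → Q} {ψ' : PP S k} (ha : a ∉ ψ.ev Q) (hb : b ∉ ψ'.ev Q) (f : Q →ₗ[S] Q)
    (h1 : (fun j => f (a j)) ∈ ψ.ev Q) (h2 : b - (fun j => f (b j)) ∈ ψ'.ev Q) : False := by
  obtain ⟨h, hh⟩ := left_inv_of_fix hQ hi hb (g := f)
    (cast (congrArg (· ∈ ψ'.ev Q) (funext fun j => by simp)) (ev_neg h2))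
  exact ha (by simpa only [hh] using ev_map h h1)

theorem exists_link (hQ : LP S Q) (hi : IsIndecomposable S Q) {k : ℕ} {a : Fin n → Q} {ψ : PP S n}
    {b : Fin k → Q} {ψ' : PP S k} (ha : a ∉ ψ.ev Q) (hb : b ∉ ψ'.ev Q) :
    ∃ ρ : PP S (n + k), Fin.append a b ∈ ρ.ev Q ∧
      ∀ a' b', Fin.append a' b' ∈ ρ.ev Q → a' ∈ ψ.ev Q → b - b' ∉ ψ'.ev Q := by
  classical
  by_contra hcon
  push Not at hcon
  have : ∀ T : Finset {ρ : PP S (n + k) // Fin.append a b ∈ ρ.ev Q}, ∃ a' b',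
      (∀ ρ ∈ T, Fin.append a' b' ∈ ρ.1.ev Q) ∧ a' ∈ ψ.ev Q ∧ b - b' ∈ ψ'.ev Q := by
    intro T
    obtain ⟨χ, hχ⟩ := exists_fconj (T.image Subtype.val)
    obtain ⟨a', b', h1, h2⟩ := hcon χ ((hχ Q _).2 fun φ hφ => by
      obtain ⟨ρ, -, rfl⟩ := Finset.mem_image.1 hφ
      exact ρ.2)
    exact ⟨a', b', fun ρ hρ => (hχ Q _).1 h1 _ (Finset.mem_image_of_mem _ hρ), h2⟩
  choose a' b' g1 g2 g3 using this
  obtain ⟨r, h1, h2⟩ := hQ (Finset {ρ : PP S (n + k) // Fin.append a b ∈ ρ.ev Q}) atTop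
    inferInstance
  obtain ⟨f, hf⟩ := hQ.ext_tuple (Fin.append a b) (fun j => r fun T => Fin.append (a' T) (b' T) j)
    fun χ hχ => lim_mem r h2 _ ((eventually_ge_atTop {⟨χ, hχ⟩}).mono fun T hT =>
      g1 T ⟨χ, hχ⟩ (hT (Finset.mem_singleton_self _)))
  refine not_split hQ hi ha hb f ?_ ?_
  · refine cast (congrArg (· ∈ ψ.ev Q) (funext fun j => ?_))
      (lim_mem r h2 a' (Eventually.of_forall g2))
    simpa only [Fin.append_left] using (hf (Fin.castAdd k j)).symm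
  · refine cast (congrArg (· ∈ ψ'.ev Q) (funext fun j => ?_))
      (lim_mem r h2 (fun T => b - b' T) (Eventually.of_forall g3))
    have := hf (Fin.natAdd n j)
    simp only [Fin.append_right] at this
    rw [Pi.sub_apply, this]
    exact (map_sub r (fun _ => b j) fun T => b' T j).trans (by rw [h1])

theorem exists_realise (p : Set (PP S n)) (hne : p.Nonempty)
    (hd : ∀ π ∈ p, ∀ π' ∈ p, ∃ π'' ∈ p, Le π'' π ∧ Le π'' π') :
    ∃ (M : Type) (_ : AddCommGroup M) (_ : Module S M) (a : Fin n → M),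
      ∀ χ : PP S n, a ∈ χ.ev M ↔ ∃ π ∈ p, Le π χ := by
  classical
  have : Nonempty p := hne.to_subtype
  let l : Filter p := ⨅ π : p, 𝓟 {π' | Le π'.1 π.1}
  have hl : l.NeBot := iInf_neBot_of_directed (fun π π' => by
    obtain ⟨π'', h, h1, h2⟩ := hd _ π.2 _ π'.2
    exact ⟨⟨π'', h⟩, principal_mono.2 fun _ h => Le.trans h h1,
      principal_mono.2 fun _ h => Le.trans h h2⟩) fun π => principal_neBot_iff.2 ⟨π, Le.rfl⟩
  let K : Submodule S (∀ π : p, Free π.1) :=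
    { carrier := {u | ∀ᶠ i in l, u i = 0}
      add_mem' := fun h h' => (h.and h').mono fun i hi => by simp [hi.1, hi.2]
      zero_mem' := Eventually.of_forall fun _ => rfl
      smul_mem' := fun _ _ h => h.mono fun i hi => by simp [hi] }
  refine ⟨(∀ π : p, Free π.1) ⧸ K, inferInstance, inferInstance,
    fun j => K.mkQ fun π => gen π.1 j, fun χ => ⟨?_, ?_⟩⟩
  · rintro ⟨y, hy⟩
    choose y' hy' using fun t => K.mkQ_surjective (y t)
    simp only [← hy', ← map_smul, ← map_sum, ← map_add] at hy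
    have hK : ∀ u ∈ K, ∀ᶠ i in l, u i = 0 := fun _ h => h
    have := eventually_all.2 fun e => hK _ ((Submodule.Quotient.mk_eq_zero K).1 (hy e))
    obtain ⟨π, hπ⟩ := this.exists
    exact ⟨π.1, π.2, le_of_gen ⟨fun t => y' t π, fun e => by
      simpa [Finset.sum_apply] using hπ e⟩⟩
  · rintro ⟨π, hπ, hle⟩
    let y : ∀ π' : p, Fin χ.m → Free π'.1 := fun π' =>
      if h : gen π'.1 ∈ χ.ev (Free π'.1) then h.choose else 0
    refine ⟨fun t => K.mkQ fun π' => y π' t, fun e => ?_⟩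
    simp only [← map_smul, ← map_sum, ← map_add]
    refine (Submodule.Quotient.mk_eq_zero K).2 ?_
    have : ∀ᶠ π' in l, Le π'.1 π := mem_iInf_of_mem ⟨π, hπ⟩ (mem_principal_self _)
    refine this.mono fun π' h => ?_
    have h' : gen π'.1 ∈ χ.ev (Free π'.1) := (h.trans hle) _ (gen_mem _)
    simpa [y, h', Finset.sum_apply] using h'.choose_spec e

theorem exists_point (I p₀ : Set (PP S n)) (hI0 : I.Nonempty)
    (hI1 : ∀ ι ∈ I, ∀ χ, Le χ ι → χ ∈ I) (hI2 : ∀ ι ∈ I, ∀ ι' ∈ I, plus ι ι' ∈ I)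
    (hne : p₀.Nonempty) (hd : ∀ π ∈ p₀, ∀ π' ∈ p₀, ∃ π'' ∈ p₀, Le π'' π ∧ Le π'' π')
    (hdis : ∀ π ∈ p₀, π ∉ I) :
    ∃ (N : PInj.{0} S) (a : Fin n → N.1), (∀ π ∈ p₀, a ∈ π.ev N.1) ∧ (∀ ι ∈ I, a ∉ ι.ev N.1) ∧
      ∀ χ : PP S n, a ∉ χ.ev N.1 → ∃ π : PP S n, a ∈ π.ev N.1 ∧ conj χ π ∈ I := by
  obtain ⟨p, hp0, hp⟩ := zorn_subset_nonempty {p : Set (PP S n) |
      (∀ π ∈ p, ∀ π' ∈ p, ∃ π'' ∈ p, Le π'' π ∧ Le π'' π') ∧ ∀ π ∈ p, π ∉ I}
    (fun C hC hch _ => ⟨⋃₀ C, ⟨by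
      rintro π ⟨s, hs, h⟩ π' ⟨s', hs', h'⟩
      rcases hch.total hs hs' with c | c
      · obtain ⟨π'', k1, k2⟩ := (hC hs').1 π (c h) π' h'
        exact ⟨π'', ⟨s', hs', k1⟩, k2⟩
      · obtain ⟨π'', k1, k2⟩ := (hC hs).1 π h π' (c h')
        exact ⟨π'', ⟨s, hs, k1⟩, k2⟩, fun π ⟨s, hs, h⟩ => (hC hs).2 π h⟩,
      fun s hs => Set.subset_sUnion_of_mem hs⟩) p₀ ⟨hd, hdis⟩
  obtain ⟨M, _, _, a₀, ha₀⟩ := exists_realise p (hne.mono hp0) hp.prop.1
  have hmax : ∀ χ : PP S n, a₀ ∉ χ.ev M → ∃ π ∈ p, conj χ π ∈ I := by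
    intro χ hχ
    by_contra hcon
    push Not at hcon
    have : p ∪ conj χ '' p ⊆ p := hp.le_of_ge (y := p ∪ conj χ '' p) ⟨by
      have aux : ∀ π ∈ p ∪ conj χ '' p, ∃ π₁ ∈ p, Le (conj χ π₁) π := by
        rintro π (h | ⟨π₁, h, rfl⟩)
        · exact ⟨π, h, conj_le_right⟩
        · exact ⟨π₁, h, Le.rfl⟩
      intro π h π' h'
      obtain ⟨π₁, k1, k2⟩ := aux π h
      obtain ⟨π₂, k3, k4⟩ := aux π' h'
      obtain ⟨π₃, k5, k6, k7⟩ := hp.prop.1 π₁ k1 π₂ k3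
      exact ⟨conj χ π₃, Or.inr ⟨π₃, k5, rfl⟩,
        (le_conj conj_le_left (conj_le_right.trans k6)).trans k2,
        (le_conj conj_le_left (conj_le_right.trans k7)).trans k4⟩, by
      rintro π (h | ⟨π₁, h, rfl⟩)
      · exact hp.prop.2 π h
      · exact hcon π₁ h⟩ Set.subset_union_left
    obtain ⟨π, hπ⟩ := hne
    exact hχ ((ha₀ χ).2 ⟨_, this (Or.inr ⟨π, hp0 hπ, rfl⟩), conj_le_left⟩)
  set c : Fin n → DD M := fun j => toDD S M (a₀ j) with hc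
  obtain ⟨e, e1, e2, e3⟩ := exists_pp_hull (lp_DD (S := S) (M := M)) c (bot S n)
  have e2' : ∀ j, e (c j) = c j := fun j => sub_eq_zero.1 (congrFun (mem_bot.1 e2) j)
  let N := LinearMap.range e
  let a : Fin n → N := fun j => ⟨c j, c j, e2' j⟩
  have hret : ∀ x : N, e.rangeRestrict (N.subtype x) = x := by
    rintro ⟨_, x, rfl⟩
    exact Subtype.ext (e1 x)
  have ha : ∀ χ : PP S n, a ∈ χ.ev N ↔ a₀ ∈ χ.ev M := fun χ =>
    ⟨fun h => mem_of_toDD (ev_map N.subtype h), fun h =>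
      cast (congrArg (· ∈ χ.ev N) (funext fun j => hret (a j)))
        (ev_map e.rangeRestrict (ev_map (toDD S M) h))⟩
  have haI : ∀ ι ∈ I, a ∉ ι.ev N := fun ι hι h => by
    obtain ⟨π, k1, k2⟩ := (ha₀ ι).1 ((ha ι).1 h)
    exact hp.prop.2 π k1 (hI1 ι hι π k2)
  have hap : ∀ π ∈ p, a ∈ π.ev N := fun π h => (ha π).2 ((ha₀ π).2 ⟨π, h, Le.rfl⟩)
  have hLP : LP S N := lp_DD.retract N.subtype e.rangeRestrict hret
  have inj : ∀ g : N →ₗ[S] N, (∀ ι ∈ I, (fun j => g (a j)) ∉ ι.ev N) → ∀ x, g x = 0 → x = 0 := by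
    intro g hg x hx
    obtain ⟨h, hh⟩ := hLP.ext_tuple (fun j => g (a j)) a fun χ hχ => by
      by_contra hcon
      obtain ⟨π, k1, k2⟩ := hmax χ fun h => hcon ((ha χ).2 h)
      exact hg _ k2 (mem_conj.2 ⟨hχ, ev_map g (hap π k1)⟩)
    obtain ⟨k, hk⟩ := e3 (N.subtype ∘ₗ h ∘ₗ g ∘ₗ e.rangeRestrict) (mem_bot.2 (funext fun j => by
      have : e.rangeRestrict (c j) = a j := hret (a j)
      simp only [LinearMap.comp_apply, Pi.sub_apply, this, hh]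
      exact sub_self _))
    have h1 := hk x
    have h2 : e x = x := congrArg Subtype.val (hret x)
    have h3 : e.rangeRestrict x = x := hret x
    simp only [LinearMap.comp_apply, h2, h3, hx, map_zero] at h1
    exact Subtype.ext h1.symm
  refine ⟨⟨ModuleCat.of S N, ⟨?_, fun A B hAB => ?_⟩, hLP.pureInj⟩, a, fun π h => hap π (hp0 h),
    haI, fun χ hχ => ?_⟩
  · obtain ⟨ι, hι⟩ := hI0
    by_contra hcon
    rw [not_nontrivial_iff_subsingleton] at hcon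
    exact haI ι hι (by rw [Subsingleton.elim a 0]; exact ev_zero ι)
  · by_contra hcon
    rw [not_or] at hcon
    obtain ⟨x, hx, hx0⟩ := Submodule.exists_mem_ne_zero_of_ne_bot hcon.1
    obtain ⟨y, hy, hy0⟩ := Submodule.exists_mem_ne_zero_of_ne_bot hcon.2
    have k1 : ¬ ∀ ι ∈ I, (fun j => A.projection B hAB (a j)) ∉ ι.ev N := fun h =>
      hy0 (inj _ h y (Submodule.projection_apply_of_mem_right hAB hy))
    have k2 : ¬ ∀ ι ∈ I, (fun j => B.projection A hAB.symm (a j)) ∉ ι.ev N := fun h =>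
      hx0 (inj _ h x (Submodule.projection_apply_of_mem_right hAB.symm hx))
    push Not at k1 k2
    obtain ⟨ι, k3, k4⟩ := k1
    obtain ⟨ι', k5, k6⟩ := k2
    refine haI _ (hI2 ι k3 ι' k5) (mem_plus.2 ⟨_, k4,
      cast (congrArg (· ∈ ι'.ev N) (funext fun j => ?_)) k6⟩)
    exact eq_sub_of_add_eq' (Submodule.projection_add_projection_eq_self hAB (a j))
  · obtain ⟨π, k1, k2⟩ := hmax χ fun h => hχ ((ha χ).2 h)
    exact ⟨π, hap π k1, k2⟩

end Pool.Agent.Lib.MP_1684af_al.Pos
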