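import Pool.Agent.Lib.MP_1684af_al.Pos.C

/-!
Over a module-finite algebra, independent families of pp formulas open on one point are bounded.
-/

set_option autoImplicit false

namespace Pool.Agent.Lib.MP_1684af_al.Pos

open Polynomial Pool.Agent.Lib.MP_cfafa5_al

lemma card_le_of_idem {A Λ V : Type} [CommRing A] [Ring Λ] [Algebra A Λ] [Module.Finite A Λ]
    [AddCommGroup V] [Module Λ V] (W : AddSubgroup V)
    (hW : ∀ t : A, ∀ w ∈ W, algebraMap A Λ t • w ∈ W) (m : Ideal A) [hm : m.IsPrime] {k : ℕ}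
    (F : Fin k → Λ) (v : Fin k → V) (h1 : ∀ i, ∀ w ∈ W, F i • w ∈ W)
    (h2 : ∀ i j, F i • v j - (if i = j then v j else 0) ∈ W)
    (h3 : ∀ j (t : A), algebraMap A Λ t • v j ∈ W → t ∈ m) :
    k ≤ Module.finrank (A ⧸ m) (Λ ⧸ (m • ⊤ : Submodule A Λ)) := by
  have : Module.Finite (A ⧸ m) (Λ ⧸ (m • ⊤ : Submodule A Λ)) :=
    Module.Finite.of_restrictScalars_finite A _ _
  suffices h : LinearIndependent (A ⧸ m) fun i => (m • ⊤ : Submodule A Λ).mkQ (F i) by
    simpa using h.fintype_card_le_finrank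
  rw [Fintype.linearIndependent_iff]
  intro g hg j
  choose a ha using fun i => Ideal.Quotient.mk_surjective (g i)
  set x : Λ := ∑ i, a i • F i with hx
  have hxm : x ∈ (m • ⊤ : Submodule A Λ) := by
    rw [← Submodule.Quotient.mk_eq_zero, ← Submodule.mkQ_apply, hx, map_sum, ← hg]
    refine Finset.sum_congr rfl fun i _ => ?_
    rw [← ha, map_smul]
    rfl
  obtain ⟨p, p1, -, p2, p3⟩ :=
    LinearMap.exists_monic_and_natDegree_eq_and_coeff_mem_pow_and_aeval_eq_zero A
      (Algebra.lmul A Λ x) m (by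
      rintro _ ⟨y, rfl⟩
      show x * y ∈ _
      refine Submodule.smul_induction_on hxm (fun t ht z _ => ?_) fun z z' h h' => ?_
      · rw [smul_mul_assoc]; exact Submodule.smul_mem_smul ht Submodule.mem_top
      · rw [add_mul]; exact add_mem h h')
  have p4 : aeval x p = 0 := by
    rw [aeval_algHom_apply] at p3
    simpa using LinearMap.congr_fun p3 1
  let T : Subalgebra A Λ :=
    { carrier := {G | ∀ w ∈ W, G • w ∈ W}
      mul_mem' := fun h h' w hw => by rw [mul_smul]; exact h _ (h' w hw)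
      add_mem' := fun h h' w hw => by rw [add_smul]; exact add_mem (h w hw) (h' w hw)
      algebraMap_mem' := hW }
  have hxT : x ∈ T := T.sum_mem fun i _ => T.smul_mem (h1 i) _
  have hxv : (x - algebraMap A Λ (a j)) • v j ∈ W := by
    have : (x - algebraMap A Λ (a j)) • v j =
        ∑ i, algebraMap A Λ (a i) • (F i • v j - if i = j then v j else 0) := by
      simp [hx, sub_smul, Finset.sum_smul, smul_sub, Algebra.smul_def, mul_smul]
    rw [this]
    exact W.sum_mem fun i _ => hW _ _ (h2 i j)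
  obtain ⟨q, hq⟩ := X_sub_C_dvd_sub_C_eval (p := p) (a := a j)
  have hq' := congrArg (aeval x) (hq.trans (mul_comm _ _))
  simp only [map_sub, map_mul, p4, aeval_C, aeval_X, zero_sub] at hq'
  have h4 : p.eval (a j) ∈ m := by
    refine h3 j _ ((neg_mem_iff (H := W)).1 ?_)
    rw [← neg_smul, hq', mul_smul]
    exact Algebra.adjoin_le (S := T) (Set.singleton_subset_iff.2 hxT)
      (aeval_mem_adjoin_singleton A x) _ hxv
  rw [eval_eq_sum_range, Finset.sum_range_succ, p1.coeff_natDegree, one_mul] at h4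
  have h5 : a j ^ p.natDegree ∈ m := (Ideal.add_mem_iff_right _ (m.sum_mem fun i hi =>
    m.mul_mem_right _ (Ideal.pow_le_self (by have := Finset.mem_range.1 hi; omega) (p2 i)))).1 h4
  rw [← ha, Ideal.Quotient.eq_zero_iff_mem]
  exact hm.mem_of_pow_mem _ h5

variable {S : Type} [Ring S] {n : ℕ}

/-- The formulas `θ j` are independent over `ψ`. -/
def Indep {k : ℕ} (θ : Fin k → PP S n) (ψ : PP S n) : Prop :=
  ∀ (M : Type) [AddCommGroup M] [Module S M] (x : Fin k → Fin n → M),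
    (∀ j, x j ∈ (θ j).ev M) → ∑ j, x j ∈ ψ.ev M → ∀ j, x j ∈ ψ.ev M

lemma exists_matrix {k : ℕ} {θ : Fin k → PP S n} {ψ : PP S n} (h : Indep θ ψ) (i : Fin k) :
    ∃ F : Matrix (Fin ψ.r) (Fin ψ.r) S, ∀ (M : Type) [AddCommGroup M] [Module S M]
      (x : Fin k → Fin n → M), (∀ j, x j ∈ (θ j).ev M) → ∀ y : Fin ψ.m → M, ∃ y' : Fin ψ.m → M,
      ∀ e, ∑ e', F e e' • (∑ t, ψ.A e' t • (∑ j, x j t) + ∑ l, ψ.B e' l • y l) =
        ∑ t, ψ.A e t • x i t + ∑ l, ψ.B e l • y' l := by
  let C := (∀ j, Free (θ j)) × (Fin ψ.m → S)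
  let c : Fin k → Fin n → C := fun j t => (Pi.single j (gen (θ j) t), 0)
  let y₀ : Fin ψ.m → C := fun l => (0, Pi.single l 1)
  let w : Fin ψ.r → C := fun e => ∑ t, ψ.A e t • (∑ j, c j t) + ∑ l, ψ.B e l • y₀ l
  let K := Submodule.span S (Set.range w)
  obtain ⟨y₁, hy₁⟩ := h (C ⧸ K) (fun j t => K.mkQ (c j t)) (fun j =>
    ev_map (K.mkQ ∘ₗ LinearMap.inl S _ _ ∘ₗ LinearMap.single S (fun j => Free (θ j)) j)
      (gen_mem (θ j))) ⟨fun l => K.mkQ (y₀ l), fun e => by
      simp only [Finset.sum_apply, ← map_smul, ← map_sum, ← map_add]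
      exact (Submodule.Quotient.mk_eq_zero K).2 (Submodule.subset_span ⟨e, rfl⟩)⟩ i
  choose y₂ hy₂ using fun l => K.mkQ_surjective (y₁ l)
  simp only [← hy₂, ← map_smul, ← map_sum, ← map_add] at hy₁
  choose F hF using fun e => (Submodule.mem_span_range_iff_exists_fun S).1
    ((Submodule.Quotient.mk_eq_zero K).1 (hy₁ e))
  refine ⟨F, fun M _ _ x hx y => ?_⟩
  choose f hf using fun j => exists_of_mem (hx j)
  let g : C →ₗ[S] M := LinearMap.coprod (∑ j, f j ∘ₗ LinearMap.proj j)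
    (Fintype.linearCombination S y)
  have g0 : ∀ z : C, g z = ∑ j, f j (z.1 j) + ∑ l, z.2 l • y l := fun z =>
    (LinearMap.coprod_apply _ _ z).trans (by simp [Fintype.linearCombination_apply])
  have g1 : ∀ j t, g (c j t) = x j t := fun j t => by
    simp only [g0, c, Pi.zero_apply, zero_smul, Finset.sum_const_zero, add_zero]
    rw [Finset.sum_eq_single j (fun b _ hb => by rw [Pi.single_eq_of_ne hb, map_zero]) (by simp),
      Pi.single_eq_same, hf]
  have g2 : ∀ l, g (y₀ l) = y l := fun l => by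
    simp [g0, y₀, Pi.single_apply, ite_smul]
  refine ⟨fun l => g (y₂ l), fun e => ?_⟩
  have := congrArg g (hF e)
  simpa only [w, map_sum, map_add, map_smul, g1, g2] using this

variable {Q : Type} [AddCommGroup Q] [Module S Q]

lemma left_inv_or (hQ : LP S Q) (hi : IsIndecomposable S Q) (f : Q →ₗ[S] Q) :
    (∃ h : Q →ₗ[S] Q, ∀ x, h (f x) = x) ∨ ∃ h : Q →ₗ[S] Q, ∀ x, h (x - f x) = x := by
  by_cases hf : ∀ (k : ℕ) (ρ : PP S k) (c : Fin k → Q), (fun t => f (c t)) ∈ ρ.ev Q → c ∈ ρ.ev Q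
  · obtain ⟨h, hh⟩ := hQ.ext (Set.range fun x => (f x, x)) fun k ρ z hz h1 => by
      choose t ht using hz
      simp only [← ht] at h1 ⊢
      exact hf k ρ t h1
    exact Or.inl ⟨h, fun x => hh _ ⟨x, rfl⟩⟩
  · push Not at hf
    obtain ⟨k, ρ, c, h1, h2⟩ := hf
    exact Or.inr (left_inv_of_fix hQ hi h2 (g := LinearMap.id - f)
      (cast (congrArg (· ∈ ρ.ev Q) (funext fun j => by simp)) (ev_neg h1)))

variable (A : Type) [CommRing A] [Algebra A S]

/-- Multiplication by a central scalar. -/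
def mu (Q : Type) [AddCommGroup Q] [Module S Q] (t : A) : Q →ₗ[S] Q where
  toFun x := algebraMap A S t • x
  map_add' := smul_add _
  map_smul' s x := by rw [RingHom.id_apply, ← mul_smul, ← mul_smul, Algebra.commutes]

theorem exists_prime (hQ : LP S Q) (hi : IsIndecomposable S Q) : ∃ m : Ideal A, m.IsPrime ∧
    ∀ t ∉ m, ∃ h : Q →ₗ[S] Q, ∀ x, h (algebraMap A S t • x) = x := by
  let m : Ideal A :=
    { carrier := {t | ¬ ∃ h : Q →ₗ[S] Q, ∀ x, h (algebraMap A S t • x) = x}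
      add_mem' := by
        rintro t s ht hs ⟨h, hh⟩
        rcases left_inv_or hQ hi (h ∘ₗ mu (S := S) A Q t) with ⟨g, hg⟩ | ⟨g, hg⟩
        · exact ht ⟨g ∘ₗ h, hg⟩
        · refine hs ⟨g ∘ₗ h, fun x => Eq.trans (congrArg g ?_) (hg x)⟩
          have := hh x
          rw [map_add, add_smul, map_add] at this
          exact eq_sub_of_add_eq' this
      zero_mem' := by
        rintro ⟨h, hh⟩
        obtain ⟨x, y, hxy⟩ := hi.1
        exact hxy (by rw [← hh x, ← hh y]; simp)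
      smul_mem' := by
        rintro c t ht ⟨h, hh⟩
        refine ht ⟨h ∘ₗ mu (S := S) A Q c, fun x => ?_⟩
        have := hh x
        rwa [smul_eq_mul, map_mul, mul_smul] at this }
  refine ⟨m, ⟨(Ideal.ne_top_iff_one m).2 fun h => h ⟨LinearMap.id, fun x => by simp⟩, ?_⟩,
    fun t ht => not_not.1 ht⟩
  intro t s hts
  by_contra hcon
  rw [not_or] at hcon
  obtain ⟨g, hg⟩ := not_not.1 hcon.1
  obtain ⟨g', hg'⟩ := not_not.1 hcon.2
  exact hts ⟨g' ∘ₗ g, fun x => by rw [map_mul, mul_smul, LinearMap.comp_apply, hg, hg']⟩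

open Matrix.Module in
theorem exists_bound [Module.Finite A S] (hQ : LP S Q) (hi : IsIndecomposable S Q) (ψ : PP S n) :
    ∃ b : ℕ, ∀ (k : ℕ) (θ : Fin k → PP S n), Indep θ ψ → (∀ j, ¬ (θ j).ev Q ⊆ ψ.ev Q) → k ≤ b := by
  obtain ⟨m, hm, hm'⟩ := exists_prime A hQ hi
  refine ⟨Module.finrank (A ⧸ m) (Matrix (Fin ψ.r) (Fin ψ.r) S ⧸
    (m • ⊤ : Submodule A (Matrix (Fin ψ.r) (Fin ψ.r) S))), fun k θ h1 h2 => ?_⟩
  choose F hF using exists_matrix h1
  choose x hx hx' using fun j => Set.not_subset.1 (h2 j)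
  let Bm : (Fin ψ.m → Q) →+ (Fin ψ.r → Q) :=
    { toFun := fun y i => ∑ l, ψ.B i l • y l
      map_zero' := by ext; simp
      map_add' := fun _ _ => by ext; simp [Finset.sum_add_distrib] }
  have hal : ∀ (t : A) (w : Fin ψ.r → Q), algebraMap A (Matrix (Fin ψ.r) (Fin ψ.r) S) t • w =
      fun e => mu (S := S) A Q t (w e) := fun t w => by
    rw [Matrix.algebraMap_eq_diagonal]
    exact diagonal_const_smul _ _
  have : Module.Finite A (Matrix (Fin ψ.r) (Fin ψ.r) S) :=
    inferInstanceAs (Module.Finite A (Fin ψ.r → Fin ψ.r → S))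
  refine card_le_of_idem Bm.range ?_ m F (fun j e => ∑ t, ψ.A e t • x j t) ?_ ?_ ?_
  · rintro t _ ⟨y, rfl⟩
    refine ⟨fun l => mu (S := S) A Q t (y l), ?_⟩
    rw [hal]
    funext e
    simp [Bm, map_sum]
  · rintro i _ ⟨y, rfl⟩
    obtain ⟨y', hy'⟩ := hF i Q 0 (fun j => ev_zero _) y
    refine ⟨y', funext fun e => ?_⟩
    simpa [Bm] using (hy' e).symm
  · intro i j
    obtain ⟨y', hy'⟩ := hF i Q (Pi.single j (x j)) (fun j' => by
      by_cases c : j' = j
      · rw [c, Pi.single_eq_same]; exact hx j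
      · rw [Pi.single_eq_of_ne c]; exact ev_zero _) 0
    refine ⟨y', funext fun e => ?_⟩
    have h3 : ∀ t, ∑ j', (Pi.single j (x j) : Fin k → Fin n → Q) j' t = x j t := fun t => by
      rw [← Finset.sum_apply, Finset.sum_pi_single']; simp
    have := hy' e
    simp only [h3, Pi.zero_apply, smul_zero, Finset.sum_const_zero, add_zero] at this
    rw [Pi.sub_apply, Matrix.Module.smul_apply, this]
    by_cases c : i = j
    · simp [c, Bm]
    · simp [c, Bm]
  · rintro j t ⟨y, hy⟩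
    by_contra ht
    obtain ⟨h, hh⟩ := hm' t ht
    refine hx' j ⟨fun l => -h (y l), fun e => ?_⟩
    have := congrArg h (congrFun hy e)
    rw [hal] at this
    simp only [smul_neg, Finset.sum_neg_distrib, add_neg_eq_zero]
    refine (hh _).symm.trans (this.symm.trans ?_)
    simp [Bm, map_sum]

end Pool.Agent.Lib.MP_1684af_al.Pos
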