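import Pool.Agent.Lib.MP_1684af_al.Pos.D

/-!
An isolated point over a module-finite algebra is isolated by a minimal pair.
-/

set_option autoImplicit false

namespace Pool.Agent.Lib.MP_1684af_al.Pos

open Pool.Agent.Lib.MP_cfafa5_al

variable {S : Type} [Ring S] {n : ℕ}

lemma ev_equiv {M M' : Type} [AddCommGroup M] [Module S M] [AddCommGroup M'] [Module S M']
    (e : M ≃ₗ[S] M') {φ : PP S n} {x : Fin n → M} : (fun j => e (x j)) ∈ φ.ev M' ↔ x ∈ φ.ev M :=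
  ⟨fun h => by simpa using ev_map e.symm.toLinearMap h, fun h => ev_map e.toLinearMap h⟩

lemma append_sub {M : Type} [AddCommGroup M] {k : ℕ} (x x' : Fin n → M) (y y' : Fin k → M) :
    Fin.append x y - Fin.append x' y' = Fin.append (x - x') (y - y') := by
  funext i
  refine Fin.addCases (fun i => ?_) (fun i => ?_) i <;>
    simp only [Pi.sub_apply, Fin.append_left, Fin.append_right]

section core

variable (N : PInj.{0} S) {φ ψ : PP S n}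
  (hiso : ∀ N' : PInj.{0} S, φ.ev N'.1 ≠ ψ.ev N'.1 → Nonempty (N'.1 ≃ₗ[S] N.1))

include hiso

lemma point_in (I p₀ : Set (PP S n)) (hI0 : ψ ∈ I)
    (hI1 : ∀ ι ∈ I, ∀ χ, Le χ ι → χ ∈ I) (hI2 : ∀ ι ∈ I, ∀ ι' ∈ I, plus ι ι' ∈ I)
    (hne : ∃ π ∈ p₀, Le π φ) (hd : ∀ π ∈ p₀, ∀ π' ∈ p₀, ∃ π'' ∈ p₀, Le π'' π ∧ Le π'' π')
    (hdis : ∀ π ∈ p₀, π ∉ I) :
    ∃ a : Fin n → N.1, (∀ π ∈ p₀, a ∈ π.ev N.1) ∧ (∀ ι ∈ I, a ∉ ι.ev N.1) ∧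
      ∀ χ : PP S n, a ∉ χ.ev N.1 → ∃ π : PP S n, a ∈ π.ev N.1 ∧ conj χ π ∈ I := by
  obtain ⟨π₀, h0, h0'⟩ := hne
  obtain ⟨N', a, h1, h2, h3⟩ := exists_point I p₀ ⟨ψ, hI0⟩ hI1 hI2 ⟨π₀, h0⟩ hd hdis
  obtain ⟨e⟩ := hiso N' fun h => h2 ψ hI0 (h ▸ h0' _ (h1 π₀ h0))
  exact ⟨fun j => e (a j), by simpa only [ev_equiv] using ⟨h1, h2, h3⟩⟩

lemma open_on {θ : PP S n} (h1 : Le θ φ) (h2 : ¬ Le θ ψ) : ¬ θ.ev N.1 ⊆ ψ.ev N.1 := by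
  obtain ⟨a, k1, k2, -⟩ := point_in N hiso {χ | Le χ ψ} {θ} Le.rfl (fun _ h _ h' => h'.trans h)
    (fun _ h _ h' => plus_le h h') ⟨θ, rfl, h1⟩
    (by rintro _ rfl _ rfl; exact ⟨_, rfl, Le.rfl, Le.rfl⟩) (by rintro _ rfl; exact h2)
  exact fun h => k2 ψ Le.rfl (h (k1 θ rfl))

lemma exists_uniform (A : Type) [CommRing A] [Algebra A S] [Module.Finite A S] (hle : Le ψ φ)
    (hne : ¬ Le φ ψ) : ∃ θ : PP S n, (Le ψ θ ∧ Le θ φ ∧ ¬ Le θ ψ) ∧ ∀ χ χ' : PP S n,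
      Le ψ χ ∧ Le χ θ ∧ ¬ Le χ ψ → Le ψ χ' ∧ Le χ' θ ∧ ¬ Le χ' ψ → ¬ Le (conj χ χ') ψ := by
  by_contra hcon
  simp only [not_exists, not_and, not_forall, not_not] at hcon
  have main : ∀ (k : ℕ) (θ : PP S n), Le ψ θ → Le θ φ → ¬ Le θ ψ →
      ∃ η : Fin k → PP S n, Indep η ψ ∧ ∀ j, Le (η j) θ ∧ ¬ Le (η j) ψ := by
    intro k
    induction k with
    | zero => exact fun θ _ _ _ => ⟨Fin.elim0, fun _ _ _ _ _ _ j => j.elim0, fun j => j.elim0⟩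
    | succ k ih =>
      intro θ h1 h2 h3
      obtain ⟨χ, χ', ⟨a1, a2, a3⟩, ⟨b1, b2, b3⟩, h4⟩ := hcon θ ⟨h1, h2, h3⟩
      obtain ⟨η, c1, c2⟩ := ih χ' b1 (b2.trans h2) b3
      refine ⟨Fin.cons χ η, fun M _ _ x hx hs => ?_,
        Fin.cases ⟨a2, a3⟩ fun j => ⟨(c2 j).1.trans b2, (c2 j).2⟩⟩
      rw [Fin.sum_univ_succ] at hs
      have d1 : ∑ j : Fin k, x j.succ ∈ χ'.ev M := ev_sum _ _ fun j _ => (c2 j).1 M (hx j.succ)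
      have d2 : x 0 ∈ ψ.ev M := h4 M (mem_conj.2 ⟨hx 0, by simpa using ev_sub (b1 M hs) d1⟩)
      exact Fin.cases d2 (c1 M (fun j => x j.succ) (fun j => hx j.succ)
        (by simpa using ev_sub hs d2))
  obtain ⟨b, hb⟩ := exists_bound A (lp_of_pureInj N.2.2) N.2.1 ψ
  obtain ⟨η, c1, c2⟩ := main (b + 1) φ hle Le.rfl hne
  exact absurd (hb _ η c1 fun j => open_on N hiso (c2 j).1 (c2 j).2) (by omega)

theorem exists_atom (A : Type) [CommRing A] [Algebra A S] [Module.Finite A S] (hle : Le ψ φ)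
    (hne : ¬ Le φ ψ) : ∃ α κ : PP S n, Le κ α ∧ α.ev N.1 ≠ κ.ev N.1 ∧
      (∀ (M : Type) [AddCommGroup M] [Module S M], α.ev M ≠ κ.ev M → φ.ev M ≠ ψ.ev M) ∧
      ∀ χ, Le κ χ → Le χ α → ¬ Le χ κ → Le α χ := by
  obtain ⟨θ, ⟨t1, t2, t3⟩, hθ⟩ := exists_uniform N hiso A hle hne
  obtain ⟨a, a1, a2, -⟩ := point_in N hiso {χ | Le χ ψ} {χ | Le ψ χ ∧ Le χ θ ∧ ¬ Le χ ψ} Le.rfl
    (fun _ h _ h' => h'.trans h) (fun _ h _ h' => plus_le h h') ⟨θ, ⟨t1, Le.rfl, t3⟩, t2⟩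
    (fun π h π' h' => ⟨conj π π', ⟨le_conj h.1 h'.1, conj_le_left.trans h.2.1, hθ π π' h h'⟩,
      conj_le_left, conj_le_right⟩) fun π h => h.2.2
  have a3 : a ∉ ψ.ev N.1 := a2 ψ Le.rfl
  obtain ⟨I, hI0, hI⟩ := zorn_subset_nonempty {I : Set (PP S n) |
      (∀ ι ∈ I, ∀ χ, Le χ ι → χ ∈ I) ∧ (∀ ι ∈ I, ∀ ι' ∈ I, plus ι ι' ∈ I) ∧ θ ∉ I}
    (fun C hC hch _ => ⟨⋃₀ C, ⟨fun ι ⟨s, hs, h⟩ χ h' => ⟨s, hs, (hC hs).1 ι h χ h'⟩, by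
      rintro ι ⟨s, hs, h⟩ ι' ⟨s', hs', h'⟩
      rcases hch.total hs hs' with c | c
      · exact ⟨s', hs', (hC hs').2.1 ι (c h) ι' h'⟩
      · exact ⟨s, hs, (hC hs).2.1 ι h ι' (c h')⟩, fun ⟨s, hs, h⟩ => (hC hs).2.2 h⟩,
      fun s hs => Set.subset_sUnion_of_mem hs⟩) {χ | Le χ ψ}
    ⟨fun _ h _ h' => h'.trans h, fun _ h _ h' => plus_le h h', t3⟩
  obtain ⟨I1, I2, I3⟩ := hI.prop
  have Imax : ∀ π ∉ I, ∃ ι ∈ I, Le θ (plus π ι) := by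
    intro π hπ
    by_contra hcon
    refine hπ (hI.le_of_ge (y := {χ | ∃ ι ∈ I, Le χ (plus π ι)})
      ⟨fun _ ⟨ι, h, h'⟩ _ h'' => ⟨ι, h, h''.trans h'⟩, fun _ ⟨ι, h, h1⟩ _ ⟨ι', h', h2⟩ =>
        ⟨_, I2 ι h ι' h', plus_le
          (h1.trans (plus_le le_plus_left (le_plus_left.trans le_plus_right)))
          (h2.trans (plus_le le_plus_left (le_plus_right.trans le_plus_right)))⟩, hcon⟩
      (fun ι h => ⟨ι, h, le_plus_right⟩) ⟨ψ, hI0 Le.rfl, le_plus_left⟩)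
  obtain ⟨b, b1, b2, b3⟩ := point_in N hiso I {θ} (hI0 Le.rfl) I1 I2 ⟨θ, rfl, t2⟩
    (by rintro _ rfl _ rfl; exact ⟨_, rfl, Le.rfl, Le.rfl⟩) (by rintro _ rfl; exact I3)
  have b4 : b ∈ θ.ev N.1 := b1 θ rfl
  have b5 : b ∉ (bot S n).ev N.1 := fun h => b2 ψ (hI0 Le.rfl) (mem_bot.1 h ▸ ev_zero ψ)
  obtain ⟨ρ, r1, r2⟩ := exists_link (lp_of_pureInj N.2.2) N.2.1 b5 a3
  have a4 : a ∈ θ.ev N.1 := a1 θ ⟨t1, Le.rfl, t3⟩
  obtain ⟨σ, hσ⟩ := exists_exY ρ θ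
  obtain ⟨κ, hκ⟩ := exists_exY ρ ψ
  have κσ : Le κ σ := fun M _ _ y hy => by
    obtain ⟨x, h1, h2⟩ := (hκ M y).1 hy
    exact (hσ M y).2 ⟨x, h1, t1 M h2⟩
  have bκ : b ∉ κ.ev N.1 := fun h => by
    obtain ⟨x, h1, h2⟩ := (hκ _ b).1 h
    have := ev_sub r1 h1
    rw [append_sub] at this
    exact r2 _ _ this (mem_bot.2 (sub_self b)) (by simpa using h2)
  have claimU : ∀ χ, Le κ χ → Le χ σ → ¬ Le χ κ → b ∈ χ.ev N.1 := by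
    intro χ c1 c2 c3
    obtain ⟨τ, hτ⟩ := exists_exX ρ χ
    have := a1 (plus (conj τ θ) ψ) ⟨le_plus_right, plus_le conj_le_right t1, fun h => c3 ?_⟩
    · obtain ⟨z, h1, h2⟩ := mem_plus.1 this
      obtain ⟨y, h3, h4⟩ := (hτ _ z).1 (mem_conj.1 h1).1
      have h5 := ev_sub r1 h3
      rw [append_sub] at h5
      simpa using ev_add (c1 _ ((hκ _ _).2 ⟨_, h5, h2⟩)) h4
    · intro M _ _ y hy
      obtain ⟨x, h1, h2⟩ := (hσ M y).1 (c2 M hy)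
      exact (hκ M y).2 ⟨x, h1, h M (le_plus_left M (mem_conj.2 ⟨(hτ M x).2 ⟨y, h1, hy⟩, h2⟩))⟩
  obtain ⟨π₀, p1, p2⟩ := b3 κ bκ
  set π := conj π₀ (conj σ θ) with hπ
  have bπ : b ∈ π.ev N.1 := mem_conj.2 ⟨p1, mem_conj.2 ⟨(hσ _ b).2 ⟨a, r1, a4⟩, b4⟩⟩
  have πσ : Le π σ := conj_le_right.trans conj_le_left
  have πθ : Le π θ := conj_le_right.trans conj_le_right
  have κπ : conj κ π ∈ I := I1 _ p2 _ (le_conj conj_le_left (conj_le_right.trans conj_le_left))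
  refine ⟨plus π κ, κ, le_plus_right, fun h => bκ (h ▸ le_plus_left _ bπ), fun M _ _ h h' => h ?_,
    fun χ c1 c2 c3 => ?_⟩
  · refine Set.Subset.antisymm (fun y hy => ?_) (le_plus_right M)
    obtain ⟨x, h1, h2⟩ := (hσ M y).1 (plus_le πσ κσ M hy)
    exact (hκ M y).2 ⟨x, h1, h' ▸ t2 M h2⟩
  · have d1 := claimU χ c1 (c2.trans (plus_le πσ κσ)) c3
    obtain ⟨ι, d2, d3⟩ := Imax (conj χ π) fun h => b2 _ h (mem_conj.2 ⟨d1, bπ⟩)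
    have d4 : Le (conj π ι) κ := by
      by_contra hcon
      obtain ⟨z, h1, h2⟩ := mem_plus.1 (claimU (plus (conj π ι) κ) le_plus_right
        (plus_le (conj_le_left.trans πσ) κσ) fun h => hcon (le_plus_left.trans h))
      exact b2 _ (I2 _ (I1 ι d2 _ conj_le_right) _ κπ)
        (mem_plus.2 ⟨z, h1, mem_conj.2 ⟨h2, ev_sub bπ (mem_conj.1 h1).1⟩⟩)
    refine plus_le (fun M _ _ y hy => ?_) c1
    obtain ⟨z, h1, h2⟩ := mem_plus.1 (d3 M (πθ M hy))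
    simpa using ev_add (mem_conj.1 h1).1
      (c1 M (d4 M (mem_conj.2 ⟨ev_sub hy (mem_conj.1 h1).2, h2⟩)))

end core

lemma minimal_of_atom {α κ : PP S n} (h1 : Le κ α)
    (h2 : ∀ χ, Le κ χ → Le χ α → ¬ Le χ κ → Le α χ) (M : Type) [AddCommGroup M] [Module S M]
    (h : α.ev M ≠ κ.ev M) : IsMinimalFor M α κ := by
  refine ⟨(h1 M).ssubset_of_ne h.symm, fun ⟨θ, k1, k2⟩ => k2.not_subset fun x hx => ?_⟩
  obtain ⟨z, k3, k4⟩ := mem_plus.1 (h2 (plus (conj θ α) κ) le_plus_right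
    (plus_le conj_le_right h1) (fun k => k1.not_subset fun y hy =>
      k M (le_plus_left M (mem_conj.2 ⟨hy, k2.subset hy⟩))) M hx)
  simpa using ev_add (mem_conj.1 k3).1 (k1.subset k4)

theorem exists_inter (N : PInj.{0} S) {k : ℕ} {φ ψ : PP S n} {φ' ψ' : PP S k} (h : Le ψ φ)
    (h' : Le ψ' φ') (hN : φ.ev N.1 ≠ ψ.ev N.1) (hN' : φ'.ev N.1 ≠ ψ'.ev N.1) :
    ∃ α κ : PP S (n + k), Le κ α ∧ α.ev N.1 ≠ κ.ev N.1 ∧
      ∀ (M : Type) [AddCommGroup M] [Module S M], α.ev M ≠ κ.ev M →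
        φ.ev M ≠ ψ.ev M ∧ φ'.ev M ≠ ψ'.ev M := by
  obtain ⟨a, a1, a2⟩ := Set.exists_of_ssubset ((h _).ssubset_of_ne hN.symm)
  obtain ⟨b, b1, b2⟩ := Set.exists_of_ssubset ((h' _).ssubset_of_ne hN'.symm)
  obtain ⟨ρ, r1, r2⟩ := exists_link (lp_of_pureInj N.2.2) N.2.1 a2 b2
  obtain ⟨f, hf⟩ := exists_sub φ (Fin.castAdd k)
  obtain ⟨g, hg⟩ := exists_sub ψ (Fin.castAdd k)
  obtain ⟨f', hf'⟩ := exists_sub φ' (Fin.natAdd n)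
  obtain ⟨g', hg'⟩ := exists_sub ψ' (Fin.natAdd n)
  set α := conj ρ (conj f f') with hα
  refine ⟨α, plus (conj α g) (conj α g'), plus_le conj_le_left conj_le_left, fun e => ?_,
    fun M _ _ e => ⟨fun c => e ?_, fun c => e ?_⟩⟩
  · have h1 : Fin.append a b ∈ α.ev N.1 := mem_conj.2 ⟨r1, mem_conj.2
      ⟨(hf _ _).2 (by simpa only [Fin.append_left] using a1),
        (hf' _ _).2 (by simpa only [Fin.append_right] using b1)⟩⟩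
    obtain ⟨z, h2, h3⟩ := mem_plus.1 (e ▸ h1)
    refine r2 (fun i => z (Fin.castAdd k i)) (fun i => z (Fin.natAdd n i)) ?_
      ((hg _ _).1 (mem_conj.1 h2).2) ?_
    · rw [Fin.append_castAdd_natAdd]
      exact (mem_conj.1 (mem_conj.1 h2).1).1
    · have h4 := (hg' _ _).1 (mem_conj.1 h3).2
      simp only [Pi.sub_apply, Fin.append_right] at h4
      exact h4
  · refine Set.Subset.antisymm (fun x hx => le_plus_left M (mem_conj.2 ⟨hx, (hg M x).2 ?_⟩))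
      (plus_le conj_le_left conj_le_left M)
    exact c ▸ (hf M x).1 (mem_conj.1 (mem_conj.1 hx).2).1
  · refine Set.Subset.antisymm (fun x hx => le_plus_right M (mem_conj.2 ⟨hx, (hg' M x).2 ?_⟩))
      (plus_le conj_le_left conj_le_left M)
    exact c ▸ (hf' M x).1 (mem_conj.1 (mem_conj.1 hx).2).2

end Pool.Agent.Lib.MP_1684af_al.Pos
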